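import Pool.Agent.K1H35.JA.Stm

/-!
# Eventual periodicity of slices
-/

set_option autoImplicit false

open Finset Pool.Agent.K1H35.JA

namespace Pool.Agent.K1H52.JA

variable {n k : ℕ} {A : Aut n k}

lemma Reach.trans' {q r s : Fin n} {x y : Fin k → ℕ} (h1 : Reach A q x r) (h2 : Reach A r y s) :
    Reach A q (x + y) s := by
  induction h1 with
  | nil q => simpa using h2
  | cons hs _ ih =>
    rw [add_assoc]
    exact Reach.cons hs (ih h2)

/-- weights of the closed `i`-walks -/
def Su (A : Aut n k) (i : Fin k) (u : Fin n) : AddSubmonoid ℕ where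
  carrier := {a | Reach A u (a • e i) u}
  zero_mem' := by
    show Reach A u (0 • e i) u
    rw [zero_smul]
    exact Reach.nil u
  add_mem' := by
    intro a b ha hb
    show Reach A u ((a + b) • e i) u
    rw [add_smul]
    exact Reach.trans' ha hb

lemma mem_Su {i : Fin k} {u : Fin n} {a : ℕ} : a ∈ Su A i u ↔ Reach A u (a • e i) u := Iff.rfl

lemma closed1 {i : Fin k} {Λ : ℕ} (hP : PerOK A i Λ) (u : Fin n) :
    ∃ T, ∀ W, T ≤ W → (Reach A u (W • e i) u ↔ Reach A u ((W + Λ) • e i) u) := by
  by_cases hpos : ∃ a, 0 < a ∧ Reach A u (a • e i) u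
  · obtain ⟨T, hT⟩ := Nat.exists_mem_closure_of_ge ((Su A i u : AddSubmonoid ℕ) : Set ℕ)
    rw [AddSubmonoid.closure_eq] at hT
    have hdvd : ∀ a, Reach A u (a • e i) u → Nat.setGcd ((Su A i u : AddSubmonoid ℕ) : Set ℕ) ∣ a := by
      intro a ha
      exact Nat.setGcd_dvd_of_mem (mem_Su.2 ha)
    have hL := hP.2 u _ hdvd hpos
    refine ⟨T, fun W hW => ?_⟩
    constructor
    · intro h
      exact mem_Su.1 (hT (W + Λ) (by omega) (dvd_add (hdvd _ h) hL))
    · intro h
      exact mem_Su.1 (hT W hW ((Nat.dvd_add_left hL).1 (hdvd _ h)))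
  · refine ⟨1, fun W hW => ?_⟩
    constructor
    · intro h
      exact absurd ⟨W, by omega, h⟩ hpos
    · intro h
      exact absurd ⟨W + Λ, by omega, h⟩ hpos

lemma closed2 {i : Fin k} {Λ : ℕ} (hP : PerOK A i Λ) :
    ∃ T, ∀ (u : Fin n) (W : ℕ), T ≤ W →
      (Reach A u (W • e i) u ↔ Reach A u ((W + Λ) • e i) u) := by
  choose T hT using closed1 (A := A) hP
  refine ⟨∑ u, T u, fun u W hW => hT u W (le_trans ?_ hW)⟩
  exact Finset.single_le_sum (f := T) (fun _ _ => Nat.zero_le _) (Finset.mem_univ u)

lemma iwalk (h : S_SL0) {i : Fin k} {Λ : ℕ} (hP : PerOK A i Λ) :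
    ∃ T, ∀ (q r : Fin n) (W : ℕ), T ≤ W →
      (Reach A q (W • e i) r ↔ Reach A q ((W + Λ) • e i) r) := by
  obtain ⟨T, hT⟩ := closed2 hP
  refine ⟨n * (T + Λ + 1), fun q r W hW => ?_⟩
  constructor
  · intro hr
    obtain ⟨u, W1, W2, W3, h1, h2, h3, h4, h5⟩ := h n k T W A i q r
      (le_trans (Nat.mul_le_mul_left n (by omega)) hW) hr
    have h6 := (hT u W2 h5).1 h2
    have h7 := Reach.trans' (Reach.trans' h1 h6) h3
    rw [← add_smul, ← add_smul] at h7
    rw [h4]
    rw [show W1 + W2 + W3 + Λ = W1 + (W2 + Λ) + W3 by ring]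
    exact h7
  · intro hr
    obtain ⟨u, W1, W2, W3, h1, h2, h3, h4, h5⟩ := h n k (T + Λ) (W + Λ) A i q r
      (le_trans hW (by omega)) hr
    obtain ⟨W2', rfl⟩ : ∃ W2', W2 = W2' + Λ := ⟨W2 - Λ, by omega⟩
    have h6 := (hT u W2' (by omega)).2 h2
    have h7 := Reach.trans' (Reach.trans' h1 h6) h3
    rw [← add_smul, ← add_smul] at h7
    rw [show W = W1 + W2' + W3 by omega]
    exact h7

/-- number of letters different from `i` -/
def oth (i : Fin k) (z : Fin k → ℕ) : ℕ := ∑ j ∈ univ.erase i, z j

lemma oth_add (i : Fin k) (x y : Fin k → ℕ) : oth i (x + y) = oth i x + oth i y := by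
  unfold oth
  rw [← Finset.sum_add_distrib]
  rfl

lemma oth_smul_e (i : Fin k) (m : ℕ) : oth i (m • e i) = 0 := by
  unfold oth
  apply Finset.sum_eq_zero
  intro j hj
  have : j ≠ i := Finset.ne_of_mem_erase hj
  simp [e, this]

lemma oth_e_self (i : Fin k) : oth i (e i) = 0 := by
  have := oth_smul_e i 1
  rwa [one_smul] at this

lemma oth_e_ne {i j : Fin k} (h : j ≠ i) : oth i (e j) = 1 := by
  unfold oth
  rw [Finset.sum_eq_single j]
  · simp [e]
  · intro b _ hb
    simp [e, hb]
  · intro hj
    exact absurd (Finset.mem_erase.2 ⟨h, Finset.mem_univ _⟩) hj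

lemma eq_of_oth_zero {i : Fin k} {z : Fin k → ℕ} (h : oth i z = 0) : z = (z i) • e i := by
  funext j
  by_cases hj : j = i
  · subst hj
    simp [e]
  · have h1 : z j = 0 := (Finset.sum_eq_zero_iff.1 h) j (Finset.mem_erase.2 ⟨hj, Finset.mem_univ _⟩)
    simp [e, hj, h1]

lemma split {i : Fin k} {q r : Fin n} {z : Fin k → ℕ} (hr : Reach A q z r) (hz : oth i z ≠ 0) :
    ∃ (W : ℕ) (j : Fin k) (u v : Fin n) (z' : Fin k → ℕ), j ≠ i ∧ Reach A q (W • e i) u ∧
      A.step u (some j) v ∧ Reach A v z' r ∧ z = W • e i + (e j + z') := by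
  induction hr with
  | nil q => exact absurd (by simp [oth]) hz
  | @cons q r s a x hs hx ih =>
    rcases a with _ | j
    · have hz' : oth i x ≠ 0 := by
        rw [oth_add] at hz
        simpa [vec, oth] using hz
      obtain ⟨W, j, u, v, z', hj, h1, h2, h3, h4⟩ := ih hz'
      refine ⟨W, j, u, v, z', hj, ?_, h2, h3, ?_⟩
      · have := Reach.cons hs h1
        simpa [vec] using this
      · simp [vec, h4]
    · by_cases hj : j = i
      · subst hj
        have hz' : oth j x ≠ 0 := by
          rw [oth_add] at hz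
          simpa [vec, oth_e_self] using hz
        obtain ⟨W, j', u, v, z', hj, h1, h2, h3, h4⟩ := ih hz'
        refine ⟨W + 1, j', u, v, z', hj, ?_, h2, h3, ?_⟩
        · have := Reach.cons hs h1
          rw [show vec (some j) = e j from rfl] at this
          rw [add_smul, one_smul, add_comm]
          exact this
        · rw [show vec (some j) = e j from rfl, h4, add_smul, one_smul]
          abel
      · refine ⟨0, j, q, r, x, hj, ?_, hs, hx, ?_⟩
        · rw [zero_smul]
          exact Reach.nil q
        · rw [zero_smul, zero_add]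
          rfl

lemma slice_aux (h : S_SL0) {i : Fin k} {Λ : ℕ} (hP : PerOK A i Λ) (B : ℕ) :
    ∃ T, ∀ (q r : Fin n) (z : Fin k → ℕ), oth i z = B → T ≤ z i →
      (Reach A q z r ↔ Reach A q (z + Λ • e i) r) := by
  obtain ⟨T0, hT0⟩ := iwalk h hP
  induction B with
  | zero =>
    refine ⟨T0, fun q r z hz hT => ?_⟩
    have h1 := eq_of_oth_zero hz
    have h2 := hT0 q r (z i) hT
    rw [add_smul, ← h1] at h2
    exact h2
  | succ B ih =>
    obtain ⟨TB, hTB⟩ := ih
    refine ⟨T0 + TB + 2 * Λ, fun q r z hz hT => ?_⟩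
    constructor
    · intro hr
      obtain ⟨W, j, u, v, z', hj, h1, h2, h3, h4⟩ := split (i := i) hr (by rw [hz]; omega)
      have hzi : z i = W + z' i := by
        rw [h4]
        simp [e, Ne.symm hj]
      have hoth : oth i z' = B := by
        have := hz
        rw [h4, oth_add, oth_add, oth_smul_e, oth_e_ne hj] at this
        omega
      by_cases hW : T0 ≤ W
      · have h5 := (hT0 q u W hW).1 h1
        have h6 := Reach.trans' h5 (Reach.cons h2 h3)
        rw [show vec (some j) = e j from rfl] at h6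
        rw [h4, show W • e i + (e j + z') + Λ • e i = (W + Λ) • e i + (e j + z') by
          rw [add_smul]; abel]
        exact h6
      · have h5 := (hTB v r z' hoth (by omega)).1 h3
        have h6 := Reach.trans' h1 (Reach.cons h2 h5)
        rw [show vec (some j) = e j from rfl] at h6
        rw [h4, show W • e i + (e j + z') + Λ • e i = W • e i + (e j + (z' + Λ • e i)) by abel]
        exact h6
    · intro hr
      have hz2 : oth i (z + Λ • e i) = B + 1 := by
        rw [oth_add, oth_smul_e, hz]
      obtain ⟨W, j, u, v, z', hj, h1, h2, h3, h4⟩ := split (i := i) hr (by rw [hz2]; omega)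
      have hzi : z i + Λ = W + z' i := by
        have := congrFun h4 i
        simpa [e, Ne.symm hj] using this
      have hoth : oth i z' = B := by
        have := hz2
        rw [h4, oth_add, oth_add, oth_smul_e, oth_e_ne hj] at this
        omega
      by_cases hW : T0 + Λ ≤ W
      · obtain ⟨W', rfl⟩ : ∃ W', W = W' + Λ := ⟨W - Λ, by omega⟩
        have h5 := (hT0 q u W' (by omega)).2 h1
        have h6 := Reach.trans' h5 (Reach.cons h2 h3)
        rw [show vec (some j) = e j from rfl] at h6
        have h7 : z = W' • e i + (e j + z') := by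
          apply add_right_cancel (b := Λ • e i)
          rw [h4, add_smul]
          abel
        rw [h7]
        exact h6
      · have hz'i : TB + Λ ≤ z' i := by omega
        obtain ⟨z'', hz''⟩ : ∃ z'' : Fin k → ℕ, z' = z'' + Λ • e i := by
          refine ⟨z' - Λ • e i, ?_⟩
          funext l
          by_cases hl : l = i
          · subst hl
            simp [e]
            omega
          · simp [e, hl]
        have hoth'' : oth i z'' = B := by
          rw [hz'', oth_add, oth_smul_e] at hoth
          omega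
        have hz''i : TB ≤ z'' i := by
          rw [hz''] at hz'i
          simp [e] at hz'i
          omega
        have h5 := (hTB v r z'' hoth'' hz''i).2 (hz'' ▸ h3)
        have h6 := Reach.trans' h1 (Reach.cons h2 h5)
        rw [show vec (some j) = e j from rfl] at h6
        have h7 : z = W • e i + (e j + z'') := by
          apply add_right_cancel (b := Λ • e i)
          rw [h4, hz'']
          abel
        rw [h7]
        exact h6

theorem t_SLICE (h : S_SL0) : S_SLICE := by
  intro n k A i Λ hP x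
  obtain ⟨T, hT⟩ := slice_aux h hP (oth i x)
  refine ⟨T, fun m hm => ?_⟩
  have key : ∀ q r : Fin n, Reach A q (x + m • e i) r ↔ Reach A q (x + (m + Λ) • e i) r := by
    intro q r
    have h1 := hT q r (x + m • e i) (by rw [oth_add, oth_smul_e, add_zero])
      (by simp [e]; omega)
    rw [add_smul, ← add_assoc]
    exact h1
  constructor
  · rintro ⟨q, hq, hr⟩
    exact ⟨q, hq, (key _ _).1 hr⟩
  · rintro ⟨q, hq, hr⟩
    exact ⟨q, hq, (key _ _).2 hr⟩

end Pool.Agent.K1H52.JA
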